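import Mathlib

set_option autoImplicit false

namespace Pool.Agent.H.MP_d9b86d_al

abbrev J : Type := ZMod 6
abbrev T : Type := J × J
abbrev V : Type := ℕ × T

def loop (τ : T) (j : J) : Prop :=
  if τ.2 = τ.1 + 1 ∨ τ.2 = τ.1 + 2 then j = τ.1 + 3 ∨ j = τ.1 + 5 else j = τ.1 + 1 ∨ j = τ.1 + 2

instance (τ : T) (j : J) : Decidable (loop τ j) := by unfold loop; infer_instance

def child (τ : T) (j : J) : Prop := ¬ loop τ j ∧ j ≠ τ.1 ∧ j ≠ τ.2

instance (τ : T) (j : J) : Decidable (child τ j) := by unfold child; infer_instance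

def ok (j : J) (τ σ : T) : Prop :=
  ¬ loop τ j ∧ ¬ loop σ j ∧ (child τ j → σ.1 = j) ∧ (child σ j → τ.1 = j)

theorem nl1 : ∀ p q : J, ¬ loop (p, q) p := by decide
theorem nl2 : ∀ p q : J, ¬ loop (p, q) q := by decide

theorem ok_symm {j : J} {τ σ : T} (h : ok j τ σ) : ok j σ τ := ⟨h.2.1, h.1, h.2.2.2, h.2.2.1⟩

theorem ok_fresh {j : J} {τ : T} (q : J) (h : ¬ loop τ j) : ok j τ (j, q) :=
  ⟨h, nl1 _ _, fun _ => rfl, fun hc => absurd rfl hc.2.1⟩

theorem ok_join {τ σ : T} (h : τ.2 = σ.2) : ok τ.2 τ σ :=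
  ⟨nl2 τ.1 τ.2, h ▸ nl2 σ.1 σ.2, fun hc => absurd rfl hc.2.2, fun hc => absurd h hc.2.2⟩

abbrev Ed : Type := Set (J × V × V)

structure Good (E : Ed) : Prop where
  symm : ∀ j v w, (j, v, w) ∈ E → (j, w, v) ∈ E
  func : ∀ j v w w', (j, v, w) ∈ E → (j, v, w') ∈ E → w = w'
  ne : ∀ j v w, (j, v, w) ∈ E → v ≠ w
  ok : ∀ j v w, (j, v, w) ∈ E → ok j v.2 w.2

def Step (E : Ed) (j : J) (v w : V) : Prop := (j, v, w) ∈ E ∨ (loop v.2 j ∧ w = v)

def Opn (E : Ed) (v : V) (j : J) : Prop := ¬ loop v.2 j ∧ ∀ w, (j, v, w) ∉ E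

def Run (E : Ed) : List J → V → V → Prop
  | [], v, w => w = v
  | j :: z, v, w => ∃ u, Step E j v u ∧ Run E z u w

variable {E E' : Ed}

theorem Step.mono {j : J} {v w : V} (h : Step E j v w) (hE : E ⊆ E') : Step E' j v w :=
  h.imp (fun a => hE a) id

theorem Run.mono (hE : E ⊆ E') : ∀ {z : List J} {v w : V}, Run E z v w → Run E' z v w
  | [], _, _, h => h
  | _ :: _, _, _, ⟨u, h1, h2⟩ => ⟨u, h1.mono hE, Run.mono hE h2⟩

theorem Step.symm (hE : Good E) {j : J} {v w : V} (h : Step E j v w) : Step E j w v := by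
  rcases h with h | ⟨h, rfl⟩
  · exact Or.inl (hE.symm _ _ _ h)
  · exact Or.inr ⟨h, rfl⟩

theorem Step.func (hE : Good E) {j : J} {v w w' : V} (h : Step E j v w) (h' : Step E j v w') :
    w = w' := by
  rcases h with h | ⟨h, rfl⟩ <;> rcases h' with h' | ⟨h', rfl⟩
  · exact hE.func _ _ _ _ h h'
  · exact absurd h' (hE.ok _ _ _ h).1
  · exact absurd h (hE.ok _ _ _ h').1
  · rfl

theorem run_append : ∀ {z z' : List J} {v w : V},
    Run E (z ++ z') v w ↔ ∃ u, Run E z v u ∧ Run E z' u w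
  | [], _, _, _ => by simp [Run]
  | j :: z, z', v, w => by
    simp only [List.cons_append, Run, run_append (z := z)]
    constructor
    · rintro ⟨u, h1, t, h2, h3⟩
      exact ⟨t, ⟨u, h1, h2⟩, h3⟩
    · rintro ⟨t, ⟨u, h1, h2⟩, h3⟩
      exact ⟨u, h1, t, h2, h3⟩

theorem run_single {j : J} {v w : V} : Run E [j] v w ↔ Step E j v w := by simp [Run]

theorem Run.rev (hE : Good E) : ∀ {z : List J} {v w : V}, Run E z v w → Run E z.reverse w v
  | [], _, _, h => h.symm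
  | j :: z, v, w, ⟨u, h1, h2⟩ => by
    rw [List.reverse_cons, run_append]
    exact ⟨u, Run.rev hE h2, run_single.2 (h1.symm hE)⟩

theorem Run.func (hE : Good E) : ∀ {z : List J} {v w w' : V}, Run E z v w → Run E z v w' → w = w'
  | [], _, _, _, h, h' => h.trans h'.symm
  | _ :: _, _, _, _, ⟨_, h1, h2⟩, ⟨_, h1', h2'⟩ => by
    obtain rfl := h1.func hE h1'
    exact Run.func hE h2 h2'

theorem Run.inj (hE : Good E) {z : List J} {v v' w : V} (h : Run E z v w) (h' : Run E z v' w) :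
    v = v' := (h.rev hE).func hE (h'.rev hE)

theorem step_or (E : Ed) (v : V) (j : J) : (∃ w, Step E j v w) ∨ Opn E v j := by
  by_cases h : loop v.2 j
  · exact Or.inl ⟨v, Or.inr ⟨h, rfl⟩⟩
  · by_cases h' : ∃ w, (j, v, w) ∈ E
    · obtain ⟨w, hw⟩ := h'
      exact Or.inl ⟨w, Or.inl hw⟩
    · exact Or.inr ⟨h, fun w hw => h' ⟨w, hw⟩⟩

theorem run_or (E : Ed) : ∀ (z : List J) (v : V),
    (∃ w, Run E z v w) ∨ ∃ p j s x, z = p ++ j :: s ∧ Run E p v x ∧ Opn E x j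
  | [], v => Or.inl ⟨v, rfl⟩
  | j :: z, v => by
    rcases step_or E v j with ⟨u, hu⟩ | h
    · rcases run_or E z u with ⟨w, hw⟩ | ⟨p, i, s, x, rfl, h1, h2⟩
      · exact Or.inl ⟨w, u, hu, hw⟩
      · exact Or.inr ⟨j :: p, i, s, x, rfl, ⟨u, hu, h1⟩, h2⟩
    · exact Or.inr ⟨[], j, z, v, rfl, rfl, h⟩

def add (E : Ed) (j : J) (x y : V) : Ed := insert (j, x, y) (insert (j, y, x) E)

theorem sub_add (E : Ed) (j : J) (x y : V) : E ⊆ add E j x y :=
  fun _ h => Or.inr (Or.inr h)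

theorem add_fin (hE : E.Finite) (j : J) (x y : V) : (add E j x y).Finite := (hE.insert _).insert _

theorem mem_add {j i : J} {x y v w : V} : (i, v, w) ∈ add E j x y ↔
    (i = j ∧ v = x ∧ w = y) ∨ (i = j ∧ v = y ∧ w = x) ∨ (i, v, w) ∈ E := by
  simp [add]

theorem add_good (hE : Good E) {j : J} {x y : V} (hx : Opn E x j) (hy : Opn E y j) (hxy : x ≠ y)
    (ho : ok j x.2 y.2) : Good (add E j x y) := by
  refine ⟨fun i v w h => ?_, fun i v w w' h h' => ?_, fun i v w h => ?_, fun i v w h => ?_⟩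
  · rw [mem_add] at h ⊢
    rcases h with ⟨a, b, c⟩ | ⟨a, b, c⟩ | h
    · exact Or.inr (Or.inl ⟨a, c, b⟩)
    · exact Or.inl ⟨a, c, b⟩
    · exact Or.inr (Or.inr (hE.symm _ _ _ h))
  · rw [mem_add] at h h'
    rcases h with ⟨a, b, c⟩ | ⟨a, b, c⟩ | h <;> rcases h' with ⟨a', b', c'⟩ | ⟨a', b', c'⟩ | h'
    · rw [c, c']
    · exact absurd (b.symm.trans b') hxy
    · subst a b; exact absurd h' (hx.2 _)
    · exact absurd (b'.symm.trans b) hxy
    · rw [c, c']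
    · subst a b; exact absurd h' (hy.2 _)
    · subst a' b'; exact absurd h (hx.2 _)
    · subst a' b'; exact absurd h (hy.2 _)
    · exact hE.func _ _ _ _ h h'
  · rw [mem_add] at h
    rcases h with ⟨a, b, c⟩ | ⟨a, b, c⟩ | h
    · rw [b, c]; exact hxy
    · rw [b, c]; exact hxy.symm
    · exact hE.ne _ _ _ h
  · rw [mem_add] at h
    rcases h with ⟨a, b, c⟩ | ⟨a, b, c⟩ | h
    · rw [a, b, c]; exact ho
    · rw [a, b, c]; exact ok_symm ho
    · exact hE.ok _ _ _ h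

theorem add_opn {j i : J} {x y v : V} (h : Opn E v i) (hx : i = j → v ≠ x) (hy : i = j → v ≠ y) :
    Opn (add E j x y) v i := by
  refine ⟨h.1, fun w hw => ?_⟩
  rw [mem_add] at hw
  rcases hw with ⟨a, b, -⟩ | ⟨a, b, -⟩ | hw
  · exact hx a b
  · exact hy a b
  · exact h.2 w hw

theorem add_step (E : Ed) (j : J) (x y : V) : Step (add E j x y) j x y := Or.inl (Or.inl rfl)

theorem bound (hE : E.Finite) (x y : V) :
    ∃ N : ℕ, x.1 < N ∧ y.1 < N ∧ ∀ j v w, (j, v, w) ∈ E → v.1 < N := by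
  obtain ⟨M, hM⟩ := (hE.image (fun e => e.2.1.1)).bddAbove
  refine ⟨max M (max x.1 y.1) + 1, by omega, by omega, fun j v w h => ?_⟩
  have : v.1 ≤ M := hM ⟨_, h, rfl⟩
  omega

theorem fresh (hE : E.Finite) (τ : T) (x y : V) :
    ∃ z : V, z.2 = τ ∧ z ≠ x ∧ z ≠ y ∧ ∀ j w, (j, z, w) ∉ E := by
  obtain ⟨N, h1, h2, h3⟩ := bound hE x y
  refine ⟨(N, τ), rfl, ?_, ?_, fun j w h => lt_irrefl _ (h3 _ _ _ h)⟩
  · rintro rfl; exact lt_irrefl _ h1
  · rintro rfl; exact lt_irrefl _ h2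

/-- Extend an open slot by a fresh vertex. -/
theorem ext1 (hE : Good E) (hf : E.Finite) {x : V} {j : J} (hx : Opn E x j) (q : J) (y : V) :
    ∃ z : V, z.2 = (j, q) ∧ z ≠ x ∧ z ≠ y ∧ Good (add E j x z) ∧
      (q ≠ j → Opn (add E j x z) z q) := by
  obtain ⟨z, h1, h2, h3, h4⟩ := fresh hf (j, q) x y
  refine ⟨z, h1, h2, h3, add_good hE hx ⟨h1 ▸ nl1 _ _, h4 j⟩ h2.symm (h1 ▸ ok_fresh q hx.1),
    fun hq => add_opn ⟨h1 ▸ nl2 _ _, h4 q⟩ (fun h => absurd h hq) fun h => absurd h hq⟩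

theorem fill : ∀ (z : List J) (v : V) {E : Ed}, Good E → E.Finite →
    ∃ E', E ⊆ E' ∧ Good E' ∧ E'.Finite ∧ ∃ w, Run E' z v w
  | [], v, E, hE, hf => ⟨E, le_rfl, hE, hf, v, rfl⟩
  | j :: z, v, E, hE, hf => by
    rcases step_or E v j with ⟨u, hu⟩ | h
    · obtain ⟨E', h1, h2, h3, w, h4⟩ := fill z u hE hf
      exact ⟨E', h1, h2, h3, w, u, hu.mono h1, h4⟩
    · obtain ⟨u, -, -, -, hg, -⟩ := ext1 hE hf h j v
      obtain ⟨E', h1, h2, h3, w, h4⟩ := fill z u hg (add_fin hf _ _ _)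
      exact ⟨E', (sub_add _ _ _ _).trans h1, h2, h3, w, u, (add_step _ _ _ _).mono h1, h4⟩

theorem bridge : ∀ (r : List J) (q : J) (x y : V) {E : Ed}, Good E → E.Finite →
    List.IsChain (· ≠ ·) (q :: r) → x.2.2 = q → (q :: r).getLast? = some y.2.2 →
    Opn E x q → Opn E y y.2.2 → x ≠ y →
    ∃ E', E ⊆ E' ∧ Good E' ∧ E'.Finite ∧ Run E' (q :: r) x y
  | [], q, x, y, E, hE, hf, _, hx, hy, ox, oy, hxy => by
    have e : q = y.2.2 := by simpa using hy
    refine ⟨add E q x y, sub_add _ _ _ _, add_good hE ox (e ▸ oy) hxy ?_, add_fin hf _ _ _,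
      run_single.2 (add_step _ _ _ _)⟩
    rw [← hx]
    exact ok_join (hx.trans e)
  | q' :: r, q, x, y, E, hE, hf, hc, hx, hy, ox, oy, hxy => by
    obtain ⟨z, h1, h2, h3, hg, ho⟩ := ext1 hE hf ox q' y
    rw [List.isChain_cons_cons] at hc
    obtain ⟨E', a, b, c, d⟩ := bridge r q' z y hg (add_fin hf _ _ _) hc.2 (by rw [h1])
      (by simpa using hy) (ho hc.1.symm) (add_opn oy (fun _ => hxy.symm) fun _ => h3.symm) h3
    exact ⟨E', (sub_add _ _ _ _).trans a, b, c, z, (add_step _ _ _ _).mono a, d⟩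

theorem bridge2 (hE : Good E) (hf : E.Finite) (r : List J) (hr : r ≠ []) (j j' : J) (x y : V)
    (hc : List.IsChain (· ≠ ·) (j :: (r ++ [j']))) (ox : Opn E x j) (oy : Opn E y j')
    (hxy : x ≠ y) : ∃ E', E ⊆ E' ∧ Good E' ∧ E'.Finite ∧ Run E' (j :: (r ++ [j'])) x y := by
  obtain ⟨q, r, rfl⟩ := List.exists_cons_of_ne_nil hr
  obtain ⟨q', hq'⟩ : ∃ q', (q :: r).getLast? = some q' := ⟨_, List.getLast?_eq_some_getLast hr⟩
  rw [List.cons_append, List.isChain_cons_cons, ← List.cons_append, List.isChain_append] at hc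
  obtain ⟨c1, c2, -, c3⟩ := hc
  have c4 : q' ≠ j' := c3 q' hq' j' rfl
  obtain ⟨X, a1, a2, a3, a4, a5⟩ := ext1 hE hf ox q y
  obtain ⟨Y, b1, b2, b3, b4, b5⟩ := ext1 a4 (add_fin hf _ _ _)
    (add_opn oy (fun _ => hxy.symm) fun _ => a3.symm) q' X
  obtain ⟨E', e1, e2, e3, e4⟩ := bridge r q X Y b4 (add_fin (add_fin hf _ _ _) _ _ _) c2
    (by rw [a1]) (by rw [b1, hq']) (add_opn (a5 c1.symm) (fun _ => a3) fun _ => b3.symm)
    (by rw [b1]; exact b5 c4) b3.symm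
  refine ⟨E', ((sub_add _ _ _ _).trans (sub_add _ _ _ _)).trans e1, e2, e3, X,
    ((add_step _ _ _ _).mono (sub_add _ _ _ _)).mono e1, ?_⟩
  rw [run_append]
  exact ⟨Y, e4, run_single.2 (((add_step _ _ _ _).mono e1).symm e2)⟩

def sh (N : ℕ) (v : V) : V := (v.1 + N, v.2)

theorem sh_inj (N : ℕ) : Function.Injective (sh N) := by
  rintro ⟨a, b⟩ ⟨c, d⟩ h
  simp only [sh, Prod.mk.injEq] at h
  exact Prod.ext (by simpa using h.1) h.2

def dbl (E : Ed) (N : ℕ) : Ed := E ∪ (fun e => (e.1, sh N e.2.1, sh N e.2.2)) '' E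

theorem mem_dbl {N : ℕ} {j : J} {v w : V} : (j, v, w) ∈ dbl E N ↔
    (j, v, w) ∈ E ∨ ∃ a b, (j, a, b) ∈ E ∧ v = sh N a ∧ w = sh N b := by
  refine or_congr Iff.rfl ⟨?_, ?_⟩
  · rintro ⟨⟨i, a, b⟩, h, e⟩
    simp only [Prod.mk.injEq] at e
    obtain ⟨rfl, rfl, rfl⟩ := e
    exact ⟨a, b, h, rfl, rfl⟩
  · rintro ⟨a, b, h, rfl, rfl⟩
    exact ⟨_, h, rfl⟩

theorem dbl_good (hE : Good E) {N : ℕ} (hN : ∀ j v w, (j, v, w) ∈ E → v.1 < N) :
    Good (dbl E N) := by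
  refine ⟨fun i v w h => ?_, fun i v w w' h h' => ?_, fun i v w h => ?_, fun i v w h => ?_⟩
  · rw [mem_dbl] at h ⊢
    rcases h with h | ⟨a, b, h, rfl, rfl⟩
    · exact Or.inl (hE.symm _ _ _ h)
    · exact Or.inr ⟨b, a, hE.symm _ _ _ h, rfl, rfl⟩
  · rw [mem_dbl] at h h'
    rcases h with h | ⟨a, b, h, e, rfl⟩ <;> rcases h' with h' | ⟨a', b', h', e', rfl⟩
    · exact hE.func _ _ _ _ h h'
    · have := hN _ _ _ h
      rw [e'] at this
      simp [sh] at this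
    · have := hN _ _ _ h'
      rw [e] at this
      simp [sh] at this
    · obtain rfl := sh_inj N (e.symm.trans e')
      rw [hE.func _ _ _ _ h h']
  · rw [mem_dbl] at h
    rcases h with h | ⟨a, b, h, rfl, rfl⟩
    · exact hE.ne _ _ _ h
    · exact fun e => hE.ne _ _ _ h (sh_inj N e)
  · rw [mem_dbl] at h
    rcases h with h | ⟨a, b, h, rfl, rfl⟩
    · exact hE.ok _ _ _ h
    · exact hE.ok _ a b h

theorem Run.sh (N : ℕ) : ∀ {z : List J} {v w : V}, Run E z v w →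
    Run (dbl E N) z (sh N v) (sh N w)
  | [], _, _, h => by rw [show _ = _ from h]; rfl
  | j :: z, v, w, ⟨u, h1, h2⟩ => by
    refine ⟨Pool.Agent.H.MP_d9b86d_al.sh N u, ?_, Run.sh N h2⟩
    rcases h1 with h1 | ⟨h1, rfl⟩
    · exact Or.inl (mem_dbl.2 (Or.inr ⟨v, u, h1, rfl, rfl⟩))
    · exact Or.inr ⟨h1, rfl⟩

def pw (w : List J) (m : ℕ) : List J := (List.replicate m w).flatten

theorem pw_add (w : List J) (m n : ℕ) : pw w (m + n) = pw w m ++ pw w n := by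
  rw [pw, List.replicate_add, List.flatten_append]; rfl

theorem pw_one (w : List J) : pw w 1 = w := by simp [pw]

theorem pw_rev (w : List J) (m : ℕ) : (pw w m).reverse = pw w.reverse m := by
  simp [pw, List.reverse_flatten]

theorem run_mem : ∀ {z : List J} {v w : V}, Run E z v w → Good E →
    w = v ∨ w ∈ (fun e : J × V × V => e.2.2) '' E
  | [], _, _, h, _ => Or.inl h
  | j :: z, v, w, ⟨u, h1, h2⟩, hE => by
    rcases run_mem h2 hE with rfl | h
    · rcases h1 with h1 | ⟨-, h1⟩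
      · exact Or.inr ⟨_, h1, rfl⟩
      · exact Or.inl h1
    · exact Or.inr h

theorem periodic (hE : Good E) (hf : E.Finite) (w : List J) (v : V)
    (h : ∀ m, ∃ y, Run E (pw w m) v y) : ∃ m, 1 ≤ m ∧ Run E (pw w m) v v := by
  choose f hf' using h
  have : (insert v ((fun e : J × V × V => e.2.2) '' E)).Finite := (hf.image _).insert _
  obtain ⟨a, b, hab, e⟩ : ∃ a b, a < b ∧ f a = f b := by
    obtain ⟨a, -, b, -, hab, e⟩ := Set.infinite_univ.exists_lt_map_eq_of_mapsTo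
      (f := f) (fun m _ => run_mem (hf' m) hE) this
    exact ⟨a, b, hab, e⟩
  obtain ⟨c, rfl⟩ := Nat.exists_eq_add_of_lt hab
  have h2 := hf' (a + c + 1)
  rw [show a + c + 1 = (c + 1) + a by ring, pw_add, run_append] at h2
  obtain ⟨u, h3, h4⟩ := h2
  rw [show c + 1 + a = a + c + 1 by ring, ← e] at h4
  obtain rfl := h4.inj hE (hf' a)
  exact ⟨c + 1, by omega, h3⟩

theorem key (hE : Good E) (hf : E.Finite) (w : List J) (hw : w ≠ [])
    (hc : ∀ m, List.IsChain (· ≠ ·) (pw w m)) (y : V) :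
    ∃ E', E ⊆ E' ∧ Good E' ∧ E'.Finite ∧ ∃ φ : V → V, Function.Injective φ ∧
      (∀ z a b, Run E z a b → Run E' z (φ a) (φ b)) ∧ ∃ m, 1 ≤ m ∧ Run E' (pw w m) y (φ y) := by
  by_cases h1 : ∀ m, ∃ u, Run E (pw w m) y u
  · exact ⟨E, le_rfl, hE, hf, id, Function.injective_id, fun _ _ _ h => h, periodic hE hf w y h1⟩
  by_cases h2 : ∀ m, ∃ u, Run E (pw w.reverse m) y u
  · obtain ⟨m, hm, h⟩ := periodic hE hf _ y h2
    refine ⟨E, le_rfl, hE, hf, id, Function.injective_id, fun _ _ _ h => h, m, hm, ?_⟩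
    have := h.rev hE
    rwa [pw_rev, List.reverse_reverse] at this
  obtain ⟨m, h1⟩ := not_forall.1 h1
  obtain ⟨n, h2⟩ := not_forall.1 h2
  obtain ⟨p, j, s, x, e, r1, o1⟩ := (run_or E _ y).resolve_left h1
  obtain ⟨p', j', s', x', e', r2, o2⟩ := (run_or E _ y).resolve_left h2
  have e2 : pw w n = s'.reverse ++ j' :: p'.reverse := by
    rw [← List.reverse_reverse w, ← pw_rev, e']
    simp
  obtain ⟨N, n1, -, n3⟩ := bound hf x x
  have hg := dbl_good hE n3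
  have hsub : E ⊆ dbl E N := Set.subset_union_left
  have e3 : pw w (m + 1 + n) = p ++ (j :: ((s ++ w ++ s'.reverse) ++ [j'])) ++ p'.reverse := by
    rw [pw_add, pw_add, e, e2, pw_one]
    simp
  obtain ⟨E', a, b, c, d⟩ := bridge2 hg (hf.union (hf.image _)) (s ++ w ++ s'.reverse)
    (by simp [hw]) j j' x (sh N x') (by
      have := hc (m + 1 + n)
      rw [e3] at this
      exact this.left_of_append.right_of_append)
    ⟨o1.1, fun u hu => by
      rcases mem_dbl.1 hu with hu | ⟨a, b, -, ha, -⟩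
      · exact o1.2 u hu
      · rw [ha] at n1
        simp [sh] at n1⟩
    ⟨o2.1, fun u hu => by
      rcases mem_dbl.1 hu with hu | ⟨a, b, hab, ha, -⟩
      · have := n3 _ _ _ hu
        simp [sh] at this
      · obtain rfl := sh_inj N ha
        exact o2.2 b hab⟩
    (by
      rintro rfl
      simp [sh] at n1)
  refine ⟨E', hsub.trans a, b, c, sh N, sh_inj N, fun z u v h => (h.sh N).mono a,
    m + 1 + n, by omega, ?_⟩
  rw [e3, run_append]
  refine ⟨sh N x', ?_, ((r2.rev hE).sh N).mono a⟩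
  rw [run_append]
  exact ⟨x, r1.mono (hsub.trans a), d⟩

end Pool.Agent.H.MP_d9b86d_al
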