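import Mathlib
import Pool.Agent.H.MP_d9b86d_al.A

set_option autoImplicit false

namespace Pool.Agent.H.MP_d9b86d_al

variable {E E' : Ed}

def x0 : V := (0, 0, 0)

def Cyc (w : List J) : Prop := w ≠ [] ∧ ∀ m, List.IsChain (· ≠ ·) (pw w m)

def Done (E : Ed) (t : List J × List J × List (List J)) : Prop :=
  (∀ z ∈ t.2.2, ∃ p, Run E z x0 p) ∧ (Cyc t.2.1 → ∃ x1 y0 y1 m, 1 ≤ m ∧ Run E t.1 x0 y0 ∧
    Run E (pw t.2.1 m) y0 y1 ∧ Run E t.1 x1 y1 ∧
    ∀ z ∈ t.2.2, ∃ p p', Run E z x0 p ∧ Run E z x1 p' ∧ (p = x0 ↔ p' = x1))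

theorem Done.mono {t : List J × List J × List (List J)} (h : Done E t) (hE : E ⊆ E') :
    Done E' t := by
  refine ⟨fun z hz => (h.1 z hz).imp fun p hp => hp.mono hE, fun hc => ?_⟩
  obtain ⟨x1, y0, y1, m, a, b, c, d, e⟩ := h.2 hc
  refine ⟨x1, y0, y1, m, a, b.mono hE, c.mono hE, d.mono hE, fun z hz => ?_⟩
  obtain ⟨p, p', a, b, c⟩ := e z hz
  exact ⟨p, p', a.mono hE, b.mono hE, c⟩

theorem fills : ∀ (W : List (List J)) {E : Ed}, Good E → E.Finite →
    ∃ E', E ⊆ E' ∧ Good E' ∧ E'.Finite ∧ ∀ z ∈ W, ∃ p, Run E' z x0 p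
  | [], E, hE, hf => ⟨E, le_rfl, hE, hf, by simp⟩
  | z :: W, E, hE, hf => by
    obtain ⟨E1, a1, a2, a3, p, a4⟩ := fill z x0 hE hf
    obtain ⟨E2, b1, b2, b3, b4⟩ := fills W a2 a3
    refine ⟨E2, a1.trans b1, b2, b3, fun y hy => ?_⟩
    rcases List.mem_cons.1 hy with rfl | hy
    · exact ⟨p, a4.mono b1⟩
    · exact b4 y hy

theorem stage (t : List J × List J × List (List J)) (E : Ed) (hE : Good E ∧ E.Finite) :
    ∃ E', (Good E' ∧ E'.Finite) ∧ E ⊆ E' ∧ Done E' t := by
  obtain ⟨u, w, W⟩ := t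
  obtain ⟨E1, a1, a2, a3, a4⟩ := fills (u :: W) hE.1 hE.2
  by_cases hc : Cyc w
  · obtain ⟨y0, hy⟩ := a4 u (by simp)
    obtain ⟨E2, b1, b2, b3, φ, b4, b5, m, b6, b7⟩ := key a2 a3 w hc.1 hc.2 y0
    refine ⟨E2, ⟨b2, b3⟩, a1.trans b1, fun z hz => (a4 z (by simp [show z ∈ W from hz])).imp
      fun p hp => hp.mono b1, fun _ => ⟨φ x0, y0, φ y0, m, b6, hy.mono b1, b7, b5 _ _ _ hy,
      fun z hz => ?_⟩⟩
    obtain ⟨p, hp⟩ := a4 z (by simp [show z ∈ W from hz])
    exact ⟨p, φ p, hp.mono b1, b5 _ _ _ hp, b4.eq_iff.symm⟩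
  · exact ⟨E1, ⟨a2, a3⟩, a1, fun z hz => a4 z (by simp [show z ∈ W from hz]),
      fun h => absurd h hc⟩

theorem limit : ∃ E : Ed, Good E ∧ ∀ t, Done E t := by
  obtain ⟨e, he⟩ := exists_surjective_nat (List J × List J × List (List J))
  choose! F hF using stage
  let f : ℕ → Ed := fun n => Nat.rec ∅ (fun k x => F (e k) x) n
  have h : ∀ k, Good (f k) ∧ (f k).Finite := by
    intro k
    induction k with
    | zero => exact ⟨⟨fun _ _ _ h => h.elim, fun _ _ _ _ h => h.elim, fun _ _ _ h => h.elim,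
        fun _ _ _ h => h.elim⟩, Set.finite_empty⟩
    | succ k ih => exact (hF _ _ ih).1
  have hm : Monotone f := monotone_nat_of_le_succ fun k => (hF _ _ (h k)).2.1
  refine ⟨⋃ k, f k, ⟨fun j v w a => ?_, fun j v w w' a b => ?_, fun j v w a => ?_,
    fun j v w a => ?_⟩, fun t => ?_⟩
  · obtain ⟨k, a⟩ := Set.mem_iUnion.1 a
    exact Set.mem_iUnion.2 ⟨k, (h k).1.symm _ _ _ a⟩
  · obtain ⟨k, a⟩ := Set.mem_iUnion.1 a
    obtain ⟨l, b⟩ := Set.mem_iUnion.1 b
    exact (h (max k l)).1.func _ _ _ _ (hm (le_max_left _ _) a) (hm (le_max_right _ _) b)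
  · obtain ⟨k, a⟩ := Set.mem_iUnion.1 a
    exact (h k).1.ne _ _ _ a
  · obtain ⟨k, a⟩ := Set.mem_iUnion.1 a
    exact (h k).1.ok _ _ _ a
  · obtain ⟨k, rfl⟩ := he t
    exact (hF _ _ (h k)).2.2.mono (Set.subset_iUnion f (k + 1))

open Classical in
noncomputable def cf (E : Ed) (j : J) (v : V) : V := if h : ∃ w, (j, v, w) ∈ E then h.choose else v

theorem cf_step (hE : Good E) {j : J} {v w : V} (h : Step E j v w) : cf E j v = w := by
  unfold cf
  split_ifs with h'
  · exact Step.func hE (Or.inl h'.choose_spec) h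
  · rcases h with h | h
    · exact absurd ⟨w, h⟩ h'
    · exact h.2.symm

theorem cf_inv (hE : Good E) (j : J) : Function.Involutive (cf E j) := by
  intro v
  by_cases h : ∃ w, (j, v, w) ∈ E
  · obtain ⟨w, h⟩ := h
    rw [cf_step hE (Or.inl h), cf_step hE (Or.inl (hE.symm _ _ _ h))]
  · have : cf E j v = v := dif_neg h
    rw [this, this]

def act (c : J → Equiv.Perm V) : List J → Equiv.Perm V
  | [] => 1
  | j :: z => act c z * c j

theorem act_append (c : J → Equiv.Perm V) : ∀ z z' : List J, act c (z ++ z') = act c z' * act c z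
  | [], _ => by simp [act]
  | j :: z, z' => by simp [act, act_append c z z', mul_assoc]

theorem act_pw (c : J → Equiv.Perm V) (z : List J) (m : ℕ) : act c (pw z m) = act c z ^ m := by
  induction m with
  | zero => simp [pw, act]
  | succ m ih => rw [pw_add, act_append, ih, pw_one, pow_succ']

theorem act_run (hE : Good E) : ∀ {z : List J} {v w : V}, Run E z v w →
    act (fun j => (cf_inv hE j).toPerm) z v = w
  | [], _, _, h => h.symm
  | j :: z, v, w, ⟨u, h1, h2⟩ => by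
    rw [act, Equiv.Perm.mul_apply, Function.Involutive.coe_toPerm, cf_step hE h1]
    exact act_run hE h2

theorem cyc_of {j : J} {s : List J} (h : List.IsChain (· ≠ ·) (j :: s))
    (h' : (j :: s).getLast? ≠ some j) : Cyc (j :: s) := by
  refine ⟨by simp, fun m => ?_⟩
  induction m with
  | zero => simp [pw]
  | succ m ih =>
    rw [add_comm, pw_add, pw_one, List.isChain_append]
    refine ⟨h, ih, fun a ha b hb e => h' ?_⟩
    cases m with
    | zero => simp [pw] at hb
    | succ m =>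
      rw [add_comm, pw_add, pw_one] at hb
      simp at hb
      rw [Option.mem_def.1 ha, e, hb]

theorem reduce (c : J → Equiv.Perm V) (hc : ∀ j, c j * c j = 1) (n : ℕ) :
    ∀ w : List J, w.length = n → ∃ u w', act c w = (act c u)⁻¹ * act c w' * act c u ∧
      (w'.length ≤ 1 ∨ Cyc w') := by
  induction n using Nat.strong_induction_on with
  | _ n ih =>
  intro w hw
  by_cases h1 : w.length ≤ 1
  · exact ⟨[], w, by simp [act], Or.inl h1⟩
  by_cases h2 : List.IsChain (· ≠ ·) w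
  · obtain ⟨j, s, rfl⟩ := List.exists_cons_of_length_pos (show 0 < w.length by omega)
    by_cases h3 : (j :: s).getLast? = some j
    · obtain ⟨s', i, rfl⟩ : ∃ s' i, s = s' ++ [i] := by
        rcases List.eq_nil_or_concat' s with rfl | h
        · simp at h1
        · exact h
      obtain rfl : i = j := by
        rw [← List.cons_append, List.getLast?_append] at h3
        simpa using h3
      obtain ⟨u, w', e, h⟩ := ih s'.length (by rw [← hw]; simp) s' rfl
      refine ⟨i :: u, w', ?_, h⟩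
      rw [act, act_append, e, act, act, act, mul_inv_rev, inv_eq_of_mul_eq_one_right (hc i)]
      simp [mul_assoc]
    · exact ⟨[], _, by simp [act], Or.inr (cyc_of h2 h3)⟩
  · rw [List.isChain_iff_forall_rel_of_append_cons_cons] at h2
    push Not at h2
    obtain ⟨a, b, p, s, rfl, rfl⟩ := h2
    obtain ⟨u, w', e, h⟩ := ih (p ++ s).length (by rw [← hw]; simp) _ rfl
    refine ⟨u, w', ?_, h⟩
    rw [← e, act_append, act_append, act, act, mul_assoc (act c s), hc, mul_one]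

theorem inv_conj_pow {G : Type} [Group G] (a b : G) (m : ℕ) :
    (a⁻¹ * b * a) ^ m = a⁻¹ * b ^ m * a := by
  simpa using conj_pow (i := m) (a := a⁻¹) (b := b)

theorem model : ∃ c : J → Equiv.Perm V, (∀ j, c j * c j = 1) ∧
    (∀ z j, (c j (act c z x0) = act c z x0 ↔ loop (act c z x0).2 j) ∧
      (child (act c z x0).2 j → (c j (act c z x0)).2.1 = j)) ∧
    ∀ (w : List J) (W : List (List J)), ∃ m, 1 ≤ m ∧
      ∀ z ∈ W, (act c z x0 = x0 ↔ act c z ((act c w ^ m) x0) = (act c w ^ m) x0) := by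
  obtain ⟨E, hE, hd⟩ := limit
  have hc : ∀ j, (cf_inv hE j).toPerm * (cf_inv hE j).toPerm = 1 := fun j =>
    Equiv.ext fun v => cf_inv hE j v
  refine ⟨fun j => (cf_inv hE j).toPerm, hc, fun z j => ?_, fun w W => ?_⟩
  · obtain ⟨p, hp⟩ := (hd ([], [], [z ++ [j]])).1 (z ++ [j]) (by simp)
    obtain ⟨v, h1, h2⟩ := run_append.1 hp
    rw [run_single] at h2
    rw [act_run hE h1, Function.Involutive.coe_toPerm, cf_step hE h2]
    rcases h2 with h2 | ⟨h2, rfl⟩
    · exact ⟨⟨fun e => absurd e.symm (hE.ne _ _ _ h2), fun e => absurd e (hE.ok _ _ _ h2).1⟩,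
        (hE.ok _ _ _ h2).2.2.1⟩
    · exact ⟨⟨fun _ => h2, fun _ => rfl⟩, fun e => absurd h2 e.1⟩
  · obtain ⟨u, w', e, h | h⟩ := reduce _ hc _ w rfl
    · refine ⟨2, by omega, fun z _ => ?_⟩
      have : act (fun j => (cf_inv hE j).toPerm) w' ^ 2 = 1 := by
        rcases w' with _ | ⟨j, _ | ⟨i, s⟩⟩
        · simp [act]
        · simp [act, pow_two, hc]
        · simp at h
      rw [e, inv_conj_pow, this]
      simp
    · obtain ⟨x1, y0, y1, m, a1, a2, a3, a4, a5⟩ := (hd (u, w', W)).2 h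
      refine ⟨m, a1, fun z hz => ?_⟩
      obtain ⟨p, p', b1, b2, b3⟩ := a5 z hz
      have : (act (fun j => (cf_inv hE j).toPerm) w ^ m) x0 = x1 := by
        rw [e, inv_conj_pow, Equiv.Perm.mul_apply, Equiv.Perm.mul_apply, act_run hE a2, ← act_pw,
          act_run hE a3, ← act_run hE a4]
        simp
      rw [this, act_run hE b1, act_run hE b2, b3]

end Pool.Agent.H.MP_d9b86d_al
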