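import Mathlib
import Pool.Agent.H.MP_d9b86d_al.B

set_option autoImplicit false

namespace Pool.Agent.H.MP_d9b86d_al

def rot : Equiv.Perm (V × J) := Equiv.prodCongr (Equiv.refl V) (Equiv.addRight 1)

theorem rot_apply (v : V) (i : J) : rot (v, i) = (v, i + 1) := rfl

theorem rot_pow (n : ℕ) (v : V) (i : J) : (rot ^ n) (v, i) = (v, i + n) := by
  induction n with
  | zero => simp
  | succ n ih => rw [pow_succ', Equiv.Perm.mul_apply, ih, rot_apply]; simp [add_assoc]

theorem rot_pow_inv (n : ℕ) (v : V) (i : J) : (rot ^ n)⁻¹ (v, i) = (v, i - n) := by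
  rw [Equiv.Perm.inv_eq_iff_eq, rot_pow]; simp

def tw (c : J → Equiv.Perm V) : Equiv.Perm (V × J) := Equiv.prodCongrLeft c

theorem tw_apply (c : J → Equiv.Perm V) (v : V) (i : J) : tw c (v, i) = (c i v, i) := rfl

def PW (c : J → Equiv.Perm V) (π : Equiv.Perm (V × J)) : Prop :=
  ∃ (σ : J) (w : J → List J), ∀ v i, π (v, i) = (act c (w i) v, i + σ)

theorem PW.mul {c : J → Equiv.Perm V} {π π' : Equiv.Perm (V × J)} (h : PW c π) (h' : PW c π') :
    PW c (π * π') := by
  obtain ⟨σ, w, h⟩ := h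
  obtain ⟨σ', w', h'⟩ := h'
  refine ⟨σ' + σ, fun i => w' i ++ w (i + σ'), fun v i => ?_⟩
  rw [Equiv.Perm.mul_apply, h', h, act_append, add_assoc]
  rfl

def Ptr (L : J → Prop) (d : J) : Prop := (L (d + 1) ∧ L (d + 2)) ∨ (L (d + 3) ∧ L (d + 5))

def APtr (L : J → Prop) (d : J) : Prop := Ptr L d ∧ ∀ e, e ≠ d → ¬ Ptr L e

theorem ptr_loop : ∀ (τ : T) (i d : J), τ.1 = i + d → APtr (fun j => loop τ (i + j)) d := by
  unfold APtr Ptr
  decide +kernel

theorem two_child : ∀ (τ : T) (i : J), ∃ d e : J, d ≠ e ∧ child τ (i + d) ∧ child τ (i + e) := by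
  decide +kernel

theorem group_model (ι : Type) [Nontrivial ι] :
    ∃ (ρ : FreeGroup ι →* Equiv.Perm (V × J)) (p : V × J) (g : J → FreeGroup ι),
      {γ | ρ γ p = p}.Infinite ∧
      (∀ (γ : FreeGroup ι) (F : List (FreeGroup ι)), ∃ n, 1 ≤ n ∧
        ∀ h ∈ F, (ρ h p = p ↔ ρ h (ρ (γ ^ n) p) = ρ (γ ^ n) p)) ∧
      ∀ γ, ∃ d e : J, d ≠ e ∧
        APtr (fun j => ρ (g j) (ρ (g d) (ρ γ p)) = ρ (g d) (ρ γ p)) d ∧
        APtr (fun j => ρ (g j) (ρ (g e) (ρ γ p)) = ρ (g e) (ρ γ p)) e := by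
  classical
  obtain ⟨c, hc, h1, h2⟩ := model
  obtain ⟨a, b, hab⟩ := exists_pair_ne ι
  let ρ : FreeGroup ι →* Equiv.Perm (V × J) :=
    FreeGroup.lift fun i => if i = a then rot else if i = b then tw c else 1
  have ha : ρ (FreeGroup.of a) = rot := by simp [ρ]
  have hb : ρ (FreeGroup.of b) = tw c := by simp [ρ, hab.symm]
  have tw2 : tw c * tw c = 1 := by
    ext1 ⟨v, i⟩
    rw [Equiv.Perm.mul_apply, tw_apply, tw_apply, ← Equiv.Perm.mul_apply, hc]
    rfl
  have p1 : PW c 1 := ⟨0, fun _ => [], fun v i => by simp [act]⟩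
  have p2 : PW c (tw c) := ⟨0, fun i => [i], fun v i => by simp [act, tw_apply]⟩
  have hP : ∀ γ, PW c (ρ γ) := by
    intro γ
    induction γ using FreeGroup.induction_on with
    | C1 => rw [map_one]; exact p1
    | of x =>
      by_cases e : x = a
      · rw [e, ha]; exact ⟨1, fun _ => [], fun v i => by simp [act, rot_apply]⟩
      by_cases e' : x = b
      · rw [e', hb]; exact p2
      · simpa [ρ, e, e'] using p1
    | inv_of x _ =>
      rw [map_inv]
      by_cases e : x = a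
      · rw [e, ha]
        refine ⟨-1, fun _ => [], fun v i => ?_⟩
        rw [Equiv.Perm.inv_eq_iff_eq]
        simp [act, rot_apply]
      by_cases e' : x = b
      · rw [e', hb, inv_eq_of_mul_eq_one_right tw2]; exact p2
      · simpa [ρ, e, e'] using p1
    | mul x y hx hy => rw [map_mul]; exact hx.mul hy
  let g : J → FreeGroup ι := fun d =>
    (FreeGroup.of a ^ d.val)⁻¹ * FreeGroup.of b * FreeGroup.of a ^ d.val
  have hg : ∀ d v i, ρ (g d) (v, i) = (c (i + d) v, i) := by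
    intro d v i
    simp only [g, map_mul, map_inv, map_pow, ha, hb, Equiv.Perm.mul_apply, rot_pow, tw_apply,
      rot_pow_inv]
    simp
  refine ⟨ρ, (x0, 0), g, ?_, fun γ F => ?_, fun γ => ?_⟩
  · refine Set.infinite_of_injective_forall_mem (f := fun n : ℕ => (FreeGroup.of b ^ 2) ^ n)
      (fun m n h => ?_) fun n => ?_
    · have := congrArg (FreeGroup.lift fun _ : ι => Multiplicative.ofAdd (1 : ℤ)) h
      simp only [map_pow, FreeGroup.lift_apply_of, ← ofAdd_nsmul, Equiv.apply_eq_iff_eq,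
        nsmul_eq_mul] at this
      omega
    · simp [hb, pow_two, tw2]
  · choose σ w hw using hP
    have s1 : ∀ n : ℕ, ∀ v i, (ρ (γ ^ n) (v, i)).2 = i + n * σ γ := by
      intro n
      induction n with
      | zero => simp
      | succ n ih =>
        intro v i
        rw [pow_succ, map_mul, Equiv.Perm.mul_apply, hw γ, ih]
        push_cast
        ring
    have s2 : σ (γ ^ 6) = 0 := by
      have := s1 6 x0 0
      rw [hw] at this
      have e : ((6 : ℕ) : J) = 0 := by decide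
      rw [e] at this
      simpa using this
    have s3 : ∀ m : ℕ, ρ ((γ ^ 6) ^ m) (x0, 0) = ((act c (w (γ ^ 6) 0) ^ m) x0, 0) := by
      intro m
      induction m with
      | zero => simp
      | succ m ih =>
        rw [pow_succ' (γ ^ 6), map_mul, Equiv.Perm.mul_apply, ih, hw, s2, pow_succ' (act _ _)]
        simp
    obtain ⟨m, m1, m2⟩ := h2 (w (γ ^ 6) 0) (F.map fun h => w h 0)
    refine ⟨6 * m, by omega, fun h hh => ?_⟩
    rw [pow_mul, s3, hw, hw, Prod.mk.injEq, m2 _ (List.mem_map.2 ⟨h, hh, rfl⟩)]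
    exact Iff.of_eq (Prod.mk.injEq _ _ _ _).symm
  · obtain ⟨σ, w, hw⟩ := hP γ
    obtain ⟨d, e, hde, c1, c2⟩ := two_child (act c (w 0) x0).2 (0 + σ)
    have key : ∀ d, child (act c (w 0) x0).2 (0 + σ + d) →
        APtr (fun j => ρ (g j) (ρ (g d) (ρ γ (x0, 0))) = ρ (g d) (ρ γ (x0, 0))) d := by
      intro d hd
      have e1 : c (0 + σ + d) (act c (w 0) x0) = act c (w 0 ++ [0 + σ + d]) x0 := by
        simp [act_append, act]
      have := ptr_loop _ (0 + σ) d ((h1 (w 0) _).2 hd)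
      convert this using 2 with j
      rw [hw, hg, hg, e1, ← (h1 _ _).1]
      simp
    exact ⟨d, e, hde, key d c1, key e c2⟩

end Pool.Agent.H.MP_d9b86d_al
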